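import Pool.Agent.V5helper50.MP

/-!
# Zero is a median of all the measures `P_t`: the inequality, all equality cases and their number

`P 1` is the point mass at `0`, `P (2 n) = P n`, and `P (2 n + 1)` is the mean of `P n` shifted up by
one and of `P (n + 1)` shifted down by one.  We prove `P_t(ℕ) ≥ 1/2` and `P_t(-ℕ) ≥ 1/2` for all
`t ≥ 1` (question Q1), we describe the odd `t` for which one of these masses is exactly `1/2` by the
runs of their binary digits, and we count them: among the odd `t` with `k + 2` binary digits there
are exactly `∑ l, C(k - l² - l, l)` with `P_t(ℕ) = 1/2`.  In particular there are exactly `982` odd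
`t` with `3 ≤ t ≤ 12 000 001` and `P_t(ℕ) = 1/2`, as the computation quoted in the problem found.

The proof.  `P_t` is the law of a simple random walk that is stopped when the word formed by its
steps is not a subsequence of the word of the inner digits of `t`.  By the Green function of the walk
`P_t(ℕ) - 1/2` is half of a weighted sum, over `m ≥ 1`, of twice the number of the distinct
subsequences with `m - 1` ones and `m` zeros minus the number of those with `m` ones and `m` zeros,
and deleting each of the `m` ones of a balanced subsequence gives each unbalanced one at most `2 m`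
times.  This argument and its equality cases, in terms of words, are in the starting library
(`W93/CU1`, `Y21/CUB`, see `MP_64b22f_nt/BiasedEqualityCases`).  The words with `l` zeros and all
runs of ones of length at least `l` are counted by shortening each run by `l`.
-/

set_option autoImplicit false

namespace Pool.Agent.Results.MP_23af5d_nt.MedianEqualityCases

open Finset Pool.Agent.Y21.CUB Pool.Agent.V5helper50.MP

/-- **Main theorem.**
1. For every `t ≥ 1`, `P t` is a probability measure on `ℤ` with `P_t(ℕ) ≥ 1/2` and
`P_t(-ℕ) ≥ 1/2`.
2. For odd `t ≥ 3`, `P_t(ℕ) = 1/2` if and only if, among the binary digits of `t` strictly between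
the first and the last one, all runs of ones (the possibly empty ones at both ends and between two
consecutive zeros included) are at least as long as the number of the zeros; and the same with ones
and zeros exchanged for `P_t(-ℕ) = 1/2`.
3. The number of the odd `t` with `k + 2` binary digits and `P_t(ℕ) = 1/2` is
`∑ l, C(k - l² - l, l)` (the terms with `l² + l > k` are zero).
4. There are exactly `982` odd `t` with `3 ≤ t ≤ 12000001` and `P_t(ℕ) = 1/2`. -/
theorem result :
    (∀ t : ℕ, 1 ≤ t → (∀ d, 0 ≤ P t d) ∧ HasSum (P t) 1 ∧
      1 / 2 ≤ mass t {d | 0 ≤ d} ∧ 1 / 2 ≤ mass t {d | d ≤ 0}) ∧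
    (∀ t : ℕ, 3 ≤ t → Odd t →
      (mass t {d | 0 ≤ d} = 1 / 2 ↔ LongRuns false (middle t)) ∧
      (mass t {d | d ≤ 0} = 1 / 2 ↔ LongRuns true (middle t))) ∧
    (∀ k : ℕ,
      {t : ℕ | 2 ^ (k + 1) ≤ t ∧ t < 2 ^ (k + 2) ∧ Odd t ∧ mass t {d | 0 ≤ d} = 1 / 2}.ncard =
        ∑ l ∈ range (k + 1), (k - l ^ 2 - l).choose l) ∧
    {t : ℕ | 3 ≤ t ∧ t ≤ 12000001 ∧ Odd t ∧ mass t {d | 0 ≤ d} = 1 / 2}.ncard = 982 := by
  refine ⟨fun t ht => ?_, fun t ht ho => equality t ht ho, fun k => card_EQ k, card_computed⟩
  obtain ⟨w, rfl⟩ := exists_val t ht
  exact ⟨(P_nonneg w).1, (total w).1, median _ ht⟩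

end Pool.Agent.Results.MP_23af5d_nt.MedianEqualityCases
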